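import Pool.Agent.Helper10.KC.Main

/-!
# Fujita's very ampleness for free quotients of Kummer covers (abelian covers)
-/

set_option autoImplicit false

namespace Pool.Agent.Results.MP_e09b14_ag.AbelianCovers

open MvPolynomial Pool.Agent.Helper10.KC

/-- Let `V = {F_1 = ... = F_c = 0} ⊂ ℙ^(L-1)`, `deg F_j = e_j`, `∑ e_j ≥ 2`, of dimension
`n = L - 1 - c ≥ 1`, be such that its Kummer cover `Y = {F_j(x_1^N, ..., x_L^N) = 0}` is smooth,
and let `Γ` be a group of diagonal matrices of exponent `N` acting freely on `Y`, `X = Y / Γ`.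
The line bundles on `X` are the pairs `(m, χ)`, `K_X` has degree `N ∑ e_j - L`, and
`K_X ⊗ A^{n + 2}` is very ample for every `A = (k, χ')` with `k ≥ 1`: every line bundle
`(N ∑ e_j - L + (n + 2) k, χ)` on `X` is very ample. -/
theorem result {L n c N : ℕ} (hN : 2 ≤ N) (hL : L = n + c + 1) (hn : 1 ≤ n) (e : Fin c → ℕ)
    (F : Fin c → MvPolynomial (Fin L) ℂ) (hF : IsKummer N e F) (hE : 2 ≤ ∑ j, e j)
    (Γ : Subgroup (Fin L → ℂˣ)) (hΓ : IsFree N Γ F) (k : ℕ) (hk : 1 ≤ k) (χ : Γ →* ℂˣ)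
    (hχ : IsBundle Γ (N * ∑ j, e j + (n + 2) * k - L) χ) :
    L < N * ∑ j, e j + (n + 2) * k ∧ VeryAmple N Γ F (N * ∑ j, e j + (n + 2) * k - L) χ := by
  haveI : NeZero N := ⟨by omega⟩
  have h1 : n + 2 ≤ (n + 2) * k := Nat.le_mul_of_pos_right _ hk
  have h2 : c ≤ ∑ j, e j := by
    have h := Finset.card_nsmul_le_sum (Finset.univ : Finset (Fin c)) e 1
      (fun j _ => hF.degree_pos j)
    simpa using h
  have h3 : ∑ j, e j ≤ N * ∑ j, e j := Nat.le_mul_of_pos_left _ (by omega)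
  exact ⟨by omega, veryAmple hN hL hn hF hΓ hχ (by omega) hE⟩

end Pool.Agent.Results.MP_e09b14_ag.AbelianCovers
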