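import Pool.Agent.Helper10.FQ.Main

/-!
# Fujita's very ampleness for free cyclic quotients of complete intersections
-/

set_option autoImplicit false

namespace Pool.Agent.Results.MP_e09b14_ag.FreeQuotient

open MvPolynomial Pool.Agent.Helper10.FQ

/-- Let `Y ⊂ ℙ^r` be a smooth complete intersection of dimension `n = r - c` on which `μ_N` acts
freely through a diagonal action with weights `w i ∈ ℤ/N`, any two distinct weights differing by a
unit (automatic if `N` is prime), and let `X = Y / μ_N`. The line bundles on `X` are the pairs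
`(k, χ)`, `K_X` has degree `∑ d_j - (r + 1)`, and `K_X ⊗ A^{n + 2}` is very ample for every
`A = (k, χ')` with `k ≥ 1`: every line bundle `(∑ d_j - (r + 1) + (n + 2) k, χ)` is very ample. -/
theorem result {r c n N : ℕ} (hN : 2 ≤ N) (hn : n + c = r) (w : Fin (r + 1) → ZMod N)
    (hw : ∀ i j, w i = w j ∨ IsUnit (w i - w j)) (d : Fin c → ℕ)
    (f : Fin c → MvPolynomial (Fin (r + 1)) ℂ) (h : IsFreeCI w d f) (k : ℕ) (hk : 1 ≤ k)
    (χ : ZMod N) :
    r + 1 < ∑ j, d j + (n + 2) * k ∧
      VeryAmple w f (∑ j, d j + (n + 2) * k - (r + 1)) χ := by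
  have h1 : ∑ j, (d j - 1) + c = ∑ j, d j := by
    have : ∑ j, d j = ∑ j, ((d j - 1) + 1) :=
      Finset.sum_congr rfl fun j _ => by
        have := h.degree_pos j
        omega
    rw [this, Finset.sum_add_distrib]
    simp
  have h2 : n + 2 ≤ (n + 2) * k := Nat.le_mul_of_pos_right _ hk
  exact ⟨by omega, veryAmple hN (by omega) hw h (by omega) χ⟩

end Pool.Agent.Results.MP_e09b14_ag.FreeQuotient
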